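import Mathlib

namespace Pool.Agent.Results.MP_64d5df_nt.Translate

/-- the loneliness gap of a finite set of speeds -/
noncomputable def kappa (V : Finset ℕ) : ℝ :=
  ⨆ t : ℝ, ⨅ v : V, |t * ((v : ℕ) : ℝ) - round (t * ((v : ℕ) : ℝ))|

lemma bddB (V : Finset ℕ) (t : ℝ) :
    BddBelow (Set.range fun v : V => |t * ((v : ℕ) : ℝ) - round (t * ((v : ℕ) : ℝ))|) :=
  ⟨0, by rintro _ ⟨v, rfl⟩; exact abs_nonneg _⟩

lemma half_le (V : Finset ℕ) (hV : V.Nonempty) (hodd : ∀ v ∈ V, Odd v) : 1 / 2 ≤ kappa V := by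
  obtain ⟨v0, hv0⟩ := hV
  haveI : Nonempty V := ⟨⟨v0, hv0⟩⟩
  have hb : BddAbove (Set.range fun t : ℝ =>
      ⨅ v : V, |t * ((v : ℕ) : ℝ) - round (t * ((v : ℕ) : ℝ))|) := by
    refine ⟨1 / 2, ?_⟩
    rintro _ ⟨t, rfl⟩
    exact (ciInf_le (bddB V t) ⟨v0, hv0⟩).trans (abs_sub_round _)
  refine le_trans ?_ (le_ciSup hb (1 / 2))
  apply le_ciInf
  rintro ⟨v, hv⟩
  obtain ⟨k, rfl⟩ := hodd v hv
  set m := round ((1 / 2 : ℝ) * ((2 * k + 1 : ℕ) : ℝ)) with hm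
  have h1 : (1 / 2 : ℝ) * ((2 * k + 1 : ℕ) : ℝ) - m = (((2 * ((k : ℤ) - m) + 1 : ℤ)) : ℝ) / 2 := by
    push_cast; ring
  show 1 / 2 ≤ |(1 / 2 : ℝ) * ((2 * k + 1 : ℕ) : ℝ) - m|
  rw [h1, abs_div, ← Int.cast_abs]
  have h2 : (1 : ℤ) ≤ |2 * ((k : ℤ) - m) + 1| := Int.one_le_abs (by omega)
  have h3 : (1 : ℝ) ≤ ((|2 * ((k : ℤ) - m) + 1| : ℤ) : ℝ) := by exact_mod_cast h2
  rw [abs_two]
  linarith

lemma pair_bound (j : ℕ) (t e : ℝ)
    (h1 : 1 / 2 - e < |t * (2 * j) - round (t * (2 * j))|)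
    (h2 : 1 / 2 - e < |t * (2 * j + 2) - round (t * (2 * j + 2))|) :
    1 / 2 < (2 * j + 1) * e := by
  set x := t * (2 * j) with hx
  set y := t * (2 * j + 2) with hy
  have hx2 := abs_sub_round x
  have hy2 := abs_sub_round y
  have key : ∃ m : ℤ, |2 * t - m| < 2 * e := by
    have e0 : 2 * t = y - x := by rw [hx, hy]; ring
    rw [e0]
    rcases abs_cases (x - round x) with ha | ha <;> rcases abs_cases (y - round y) with hb | hb
    · exact ⟨round y - round x, by push_cast; rw [abs_lt]; constructor <;> linarith⟩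
    · exact ⟨round y - round x - 1, by push_cast; rw [abs_lt]; constructor <;> linarith⟩
    · exact ⟨round y - round x + 1, by push_cast; rw [abs_lt]; constructor <;> linarith⟩
    · exact ⟨round y - round x, by push_cast; rw [abs_lt]; constructor <;> linarith⟩
  obtain ⟨m, hm⟩ := key
  have h3 := round_le x (j * m)
  have h4 : x - ((j * m : ℤ) : ℝ) = j * (2 * t - m) := by rw [hx]; push_cast; ring
  rw [h4, abs_mul, Nat.abs_cast] at h3
  have h5 : (j : ℝ) * |2 * t - m| ≤ j * (2 * e) :=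
    mul_le_mul_of_nonneg_left hm.le (Nat.cast_nonneg j)
  linarith

theorem result (V : Finset ℕ) (hodd : ∀ v ∈ V, Odd v) (v : ℕ) (hv : v ∈ V) (hv2 : v + 2 ∈ V)
    (a : ℕ) (ha : Odd a) :
    kappa (V.image (fun w => a + w)) < kappa V := by
  refine lt_of_lt_of_le ?_ (half_le V ⟨v, hv⟩ hodd)
  obtain ⟨j, hj⟩ : ∃ j, a + v = 2 * j := by
    obtain ⟨k, hk⟩ := hodd v hv
    obtain ⟨l, hl⟩ := ha
    exact ⟨k + l + 1, by omega⟩
  have hpos : (0 : ℝ) < 2 * j + 1 := by positivity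
  have he : (0 : ℝ) < 1 / (2 * (2 * j + 1)) := by positivity
  refine lt_of_le_of_lt (ciSup_le (fun t => ?_)) (show 1 / 2 - 1 / (2 * (2 * (j : ℝ) + 1)) < 1 / 2 by
    linarith)
  by_contra hcon
  push Not at hcon
  have m1 : 2 * j ∈ V.image (fun w => a + w) := Finset.mem_image.2 ⟨v, hv, hj⟩
  have m2 : 2 * j + 2 ∈ V.image (fun w => a + w) := Finset.mem_image.2 ⟨v + 2, hv2, by omega⟩
  have h1 := hcon.trans_le (ciInf_le (bddB _ t) ⟨_, m1⟩)
  have h2 := hcon.trans_le (ciInf_le (bddB _ t) ⟨_, m2⟩)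
  push_cast at h1 h2
  have h3 := pair_bound j t _ h1 h2
  have h4 : (2 * (j : ℝ) + 1) * (1 / (2 * (2 * j + 1))) = 1 / 2 := by field_simp
  linarith

end Pool.Agent.Results.MP_64d5df_nt.Translate
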